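import Pool.Agent.Helper9.FL.Stm
import Pool.Agent.Helper43.PP.Grow

/-!
Package GROWG of the project FL (helper9, MP_e09b14_ag): growth in general variables.
-/

set_option autoImplicit false
set_option linter.unusedSectionVars false

namespace Pool.Agent.Helper43.FL

open FF Module MvPolynomial Pool.Agent.Helper9.FJ Pool.Agent.Helper9.FL Pool.Agent.Helper90.FJ
open Pool.Agent.Helper43.PP (sc coeff_sc exists_lift' map_io_injective ge_sc ge_sc' sum_eq_one
  sum_eq_zero pr map_pr pr_mul card_lt pr_word)

variable {K : Type} [Field K] [Algebra ℂ K] [IsFF ℂ K] {I : Type} [Fintype I] [DecidableEq I]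

/-- the reductions of the scaled jets -/
theorem redg0 (P : Place ℂ K) {t : K} (ht : P.ord t = 1) {v0 : MvPolynomial I K}
    (h0 : ∀ α, Ge P 0 (coeff α v0)) (h : Ge P 1 (coeff 0 v0 - 1)) (β : I →₀ ℕ) :
    Ge P 1 (coeff β (sc t v0 - MvPolynomial.map (io P) 1)) := by
  rw [map_one, coeff_sub, coeff_sc]
  rcases Nat.eq_zero_or_pos (∑ x, β x) with hβ | hβ
  · rw [sum_eq_zero hβ]
    simpa using h
  · have h1 : β ≠ 0 := by
      rintro rfl
      simp at hβ
    rw [coeff_one, if_neg h1.symm, sub_zero]
    exact_mod_cast ge_sc P ht (h0 β) (m := 1) hβ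

theorem redgk (P : Place ℂ K) {t : K} (ht : P.ord t = 1) {v : MvPolynomial I K}
    (h0 : ∀ α, Ge P 0 (coeff α v)) {a0 : ℂ} {a1 : I → ℂ}
    (h : Ge P 2 (coeff 0 v - t * algebraMap ℂ K a0))
    (h1 : ∀ x : I, Ge P 1 (coeff (Finsupp.single x 1) v - algebraMap ℂ K (a1 x)))
    (β : I →₀ ℕ) :
    Ge P 1 (coeff β (C t⁻¹ * sc t v - MvPolynomial.map (io P)
      (C (cst P a0) + ∑ x, C (cst P (a1 x)) * X x))) := by
  have htne : t ≠ 0 := by
    rintro rfl
    rw [P.ord_zero] at ht
    omega
  rw [map_add, map_C, map_sum, io_cst, coeff_sub, coeff_C_mul, coeff_sc, coeff_add, coeff_sum]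
  simp_rw [map_mul, map_C, map_X, io_cst, coeff_C_mul]
  rcases Nat.lt_or_ge (∑ x, β x) 1 with hβ | hβ
  · rw [sum_eq_zero (β := β) (by omega)]
    simp only [coeff_zero_X, mul_zero, Finset.sum_const_zero, add_zero, Finsupp.coe_zero,
      Pi.zero_apply, pow_zero, one_mul, coeff_zero_C]
    have : t⁻¹ * coeff 0 v - algebraMap ℂ K a0 =
        t⁻¹ * (coeff 0 v - t * algebraMap ℂ K a0) := by
      field_simp
    rw [this]
    exact ge_sc' P ht h
  rcases Nat.lt_or_ge (∑ x, β x) 2 with hβ2 | hβ2
  · obtain ⟨x, rfl⟩ := sum_eq_one (β := β) (by omega)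
    have e1 : ∑ y, (Finsupp.single x 1 : I →₀ ℕ) y = 1 := by omega
    have e2 : ∑ y, algebraMap ℂ K (a1 y) * coeff (Finsupp.single x 1) (X y : MvPolynomial I K)
        = algebraMap ℂ K (a1 x) := by
      rw [Finset.sum_eq_single x]
      · rw [coeff_X, if_pos rfl, mul_one]
      · intro y _ hy
        rw [coeff_X, if_neg, mul_zero]
        intro h
        exact hy (Finsupp.single_left_injective one_ne_zero h)
      · intro h; exact absurd (Finset.mem_univ _) h
    have e3 : coeff (Finsupp.single x 1) (C (algebraMap ℂ K a0) : MvPolynomial I K) = 0 := by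
      rw [coeff_C, if_neg]
      intro h
      have := DFunLike.congr_fun h x
      simp at this
    rw [e1, e2, e3, pow_one, zero_add, ← mul_assoc, inv_mul_cancel₀ htne, one_mul]
    exact h1 x
  · have e2 : ∑ y, algebraMap ℂ K (a1 y) * coeff β (X y : MvPolynomial I K) = 0 := by
      refine Finset.sum_eq_zero fun y _ => ?_
      rw [coeff_X, if_neg, mul_zero]
      rintro rfl
      have : ∑ x, (Finsupp.single y 1 : I →₀ ℕ) x = 1 := by
        simp [Finsupp.single_apply]
      omega
    have e3 : coeff β (C (algebraMap ℂ K a0) : MvPolynomial I K) = 0 := by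
      rw [coeff_C, if_neg]
      rintro rfl
      simp at hβ2
    rw [e2, e3, add_zero, sub_zero]
    apply ge_sc' P ht
    exact_mod_cast ge_sc P ht (h0 β) (m := 2) hβ2

/-- the exponent of the monomial of a product -/
noncomputable def expo {B : ℕ} (α : Option I → Fin (B + 1)) : I →₀ ℕ :=
  ∑ y : I, Finsupp.single y (α (some y) : ℕ)

theorem expo_apply {B : ℕ} (α : Option I → Fin (B + 1)) (y : I) :
    expo α y = α (some y) := by
  unfold expo
  rw [Finsupp.finsetSum_apply, Finset.sum_eq_single y]
  · rw [Finsupp.single_eq_same]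
  · intro z _ hz
    rw [Finsupp.single_eq_of_ne]
    exact hz.symm
  · intro h; exact absurd (Finset.mem_univ _) h

theorem pr_X {B : ℕ} (α : Option I → Fin (B + 1)) :
    pr B (1 : MvPolynomial (I) ℂ) (fun k => k.elim 1 fun y => X y) α =
      monomial (expo α) 1 := by
  unfold pr expo
  rw [Fintype.prod_option, monomial_sum_one]
  simp only [Option.elim_none, one_pow, one_mul, mul_one, Option.elim_some]
  exact Finset.prod_congr rfl fun y _ => X_pow_eq_monomial

/-- the products of sections with the jets of the coordinates are linearly independent -/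
theorem indep (P : Place ℂ K) {t : K} (ht : P.ord t = 1) (B : ℕ) {v0 : MvPolynomial (I) K}
    {v : Option I → MvPolynomial (I) K} (h0 : ∀ α, Ge P 0 (coeff α v0))
    (hk : ∀ k α, Ge P 0 (coeff α (v k))) (hJ : JETG P t v0 v)
    (c : (Option I → Fin (B + 1)) → ℂ)
    (hc : ∑ α, C (algebraMap ℂ K (c α)) * pr B v0 v α = 0) : c = 0 := by
  have htne : t ≠ 0 := by
    rintro rfl
    rw [P.ord_zero] at ht
    omega
  obtain ⟨W0, hW0, hW0'⟩ := exists_lift' P _ 1 (redg0 P ht h0 hJ.1)
  have hW : ∀ k : Option I, ∃ W : MvPolynomial (I) P.O,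
      MvPolynomial.map (io P) W = C t⁻¹ * sc t (v k) ∧
      MvPolynomial.map (theta P) W = k.elim 1 fun y => X y := by
    intro k
    cases k with
    | none =>
      obtain ⟨W, hW1, hW2⟩ := exists_lift' P _ _ (redgk P ht (hk none) (a0 := 1) (a1 := 0)
        (by rw [map_one, mul_one]; exact hJ.2.1.1) (fun x => by
          rw [Pi.zero_apply, map_zero, sub_zero]
          exact hJ.2.1.2 x))
      refine ⟨W, hW1, hW2.trans ?_⟩
      simp
    | some y =>
      obtain ⟨W, hW1, hW2⟩ := exists_lift' P _ _ (redgk P ht (hk (some y)) (a0 := 0)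
        (a1 := Pi.single y 1) (by rw [map_zero, mul_zero, sub_zero]; exact (hJ.2.2 y).1)
        (fun x => by
          have := (hJ.2.2 y).2 x
          rw [Pi.single_apply]
          convert this using 2
          by_cases hxy : x = y
          · rw [if_pos hxy, if_pos hxy, map_one]
          · rw [if_neg hxy, if_neg hxy, map_zero]))
      refine ⟨W, hW1, hW2.trans ?_⟩
      rw [map_add, map_C, map_sum, theta_cst, map_zero, zero_add, Finset.sum_eq_single y]
      · rw [map_mul, map_C, map_X, theta_cst, Pi.single_eq_same, map_one, one_mul]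
        rfl
      · intro x _ hx
        rw [map_mul, map_C, theta_cst, Pi.single_eq_of_ne hx, map_zero, zero_mul]
      · intro h; exact absurd (Finset.mem_univ _) h
  choose W hW1 hW2 using hW
  by_contra hcne
  obtain ⟨α1, hα1⟩ : ∃ α, c α ≠ 0 := by
    by_contra h
    push Not at h
    exact hcne (funext h)
  obtain ⟨α0, hα0, hmin⟩ := Finset.exists_min_image (Finset.univ.filter fun α => c α ≠ 0)
    (fun α => ∑ k, (α k : ℕ)) ⟨α1, Finset.mem_filter.2 ⟨Finset.mem_univ _, hα1⟩⟩
  set m := ∑ k, (α0 k : ℕ) with hm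
  have hα0' : c α0 ≠ 0 := (Finset.mem_filter.1 hα0).2
  have hmin' : ∀ α, c α ≠ 0 → m ≤ ∑ k, (α k : ℕ) := fun α h =>
    hmin α (Finset.mem_filter.2 ⟨Finset.mem_univ _, h⟩)
  let t' : P.O := ⟨t, Or.inr (by rw [ht]; norm_num)⟩
  have hiot : io P t' = t := rfl
  have htht : theta P t' = 0 := (theta_eq_zero P t').2 (Or.inr (by rw [hiot, ht]))
  have ht' : t' ≠ 0 := by
    intro h
    apply htne
    rw [← hiot, h, map_zero]
  have e3 : ∑ α, C (cst P (c α)) * (C t' ^ (∑ k, (α k : ℕ)) * pr B W0 W α) = 0 := by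
    apply map_io_injective P
    rw [map_zero, map_sum, ← map_zero (sc t : MvPolynomial (I) K →ₐ[K] _), ← hc,
      map_sum]
    refine Finset.sum_congr rfl fun α _ => ?_
    rw [map_mul, map_mul, map_mul, map_C, io_cst, map_pow, map_C, hiot, map_pr, map_pr, hW0]
    simp_rw [hW1]
    rw [← pr_mul]
    congr 1
    · rw [← MvPolynomial.algebraMap_eq, AlgHom.commutes]
    · simp only [← mul_assoc, ← C_mul, mul_inv_cancel₀ htne, map_one, one_mul]
  have e5 : ∑ α, C (cst P (c α)) * (C t' ^ ((∑ k, (α k : ℕ)) - m) * pr B W0 W α) = 0 := by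
    have h1 : (C t' : MvPolynomial (I) P.O) ^ m ≠ 0 := pow_ne_zero _ (by
      rw [Ne, C_eq_zero]
      exact ht')
    apply (mul_eq_zero_iff_left h1).1
    rw [← e3, Finset.mul_sum]
    refine Finset.sum_congr rfl fun α _ => ?_
    by_cases hcα : c α = 0
    · rw [hcα, map_zero, map_zero, zero_mul, zero_mul, mul_zero]
    · obtain ⟨d, hd⟩ := Nat.exists_eq_add_of_le (hmin' α hcα)
      rw [hd, Nat.add_sub_cancel_left, pow_add]
      ring
  have e6 := congrArg (fun F => coeff (expo α0) (MvPolynomial.map (theta P) F)) e5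
  simp only [map_zero, coeff_zero, map_sum, coeff_sum] at e6
  apply hα0'
  rw [← e6]
  symm
  rw [Finset.sum_eq_single α0]
  · rw [map_mul, map_mul, map_C, theta_cst, map_pow, map_C, htht, map_pr, hW0', map_one]
    simp_rw [hW2]
    rw [pr_X, ← hm, Nat.sub_self, pow_zero, one_mul, coeff_C_mul, coeff_monomial, if_pos rfl,
      mul_one]
  · intro α _ hα
    rw [map_mul, map_mul, map_C, theta_cst, map_pow, map_C, htht, map_pr, hW0', map_one]
    simp_rw [hW2]
    rw [pr_X, coeff_C_mul]
    by_cases hcα : c α = 0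
    · rw [hcα, zero_mul]
    rcases (hmin' α hcα).lt_or_eq with hlt | heq
    · rw [map_zero, zero_pow (by omega), zero_mul, coeff_zero, mul_zero]
    · rw [← heq, Nat.sub_self, pow_zero, one_mul, coeff_monomial, if_neg, mul_zero]
      intro h
      apply hα
      have h1 : ∀ y, α (some y) = α0 (some y) := fun y => by
        apply Fin.ext
        rw [← expo_apply, ← expo_apply, h]
      funext k
      cases k with
      | some y => exact h1 y
      | none =>
        rw [hm, Fintype.sum_option, Fintype.sum_option] at heq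
        simp_rw [h1] at heq
        apply Fin.ext
        omega
  · intro h; exact absurd (Finset.mem_univ _) h


/-- the exponents of bounded total degree -/
theorem card_exp (D : ℕ) : ({β : I →₀ ℕ | ∑ x, β x ≤ D}).Finite ∧
    Nat.card {β : I →₀ ℕ | ∑ x, β x ≤ D} ≤ (D + 1) ^ Fintype.card I := by
  let g : {β : I →₀ ℕ | ∑ x, β x ≤ D} → (I → Fin (D + 1)) := fun β x => ⟨β.1 x, by
    have h1 : ∑ x, β.1 x ≤ D := β.2
    have h2 := Finset.single_le_sum (f := fun x => β.1 x) (fun _ _ => Nat.zero_le _)
      (Finset.mem_univ x)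
    have h3 : β.1 x ≤ ∑ x, β.1 x := h2
    omega⟩
  have hg : Function.Injective g := by
    intro β β' h
    apply Subtype.ext
    ext x
    exact congrArg Fin.val (congrFun h x)
  have hf : Finite {β : I →₀ ℕ | ∑ x, β x ≤ D} := Finite.of_injective g hg
  refine ⟨Set.toFinite _, ?_⟩
  have := Nat.card_le_card_of_injective g hg
  simpa [Nat.card_eq_fintype_card] using this

theorem degree_pr {n : Type} [Fintype n] {B D : ℕ} {v0 : MvPolynomial I K}
    {v : n → MvPolynomial I K} (h0 : v0.totalDegree ≤ D) (hv : ∀ k, (v k).totalDegree ≤ D)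
    (α : n → Fin (B + 1)) : (pr B v0 v α).totalDegree ≤ (Fintype.card n * B) * D := by
  unfold pr
  refine (totalDegree_finsetProd _ _).trans ?_
  have h1 : ∀ k ∈ (Finset.univ : Finset n),
      (v k ^ (α k : ℕ) * v0 ^ (B - α k)).totalDegree ≤ B * D := by
    intro k _
    refine (totalDegree_mul _ _).trans ?_
    have e1 := (totalDegree_pow (v k) (α k)).trans (Nat.mul_le_mul_left _ (hv k))
    have e2 := (totalDegree_pow v0 (B - α k)).trans (Nat.mul_le_mul_left _ h0)
    have e3 : (α k : ℕ) * D + (B - α k) * D = B * D := by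
      rw [← add_mul, Nat.add_sub_cancel' (Nat.lt_succ_iff.1 (α k).2)]
    omega
  refine (Finset.sum_le_sum h1).trans ?_
  rw [Finset.sum_const, Finset.card_univ, smul_eq_mul, mul_assoc]

/-- Package GROWG. -/
theorem growg : S_GROWG := by
  classical
  intro K _ _ _ I _ _ P t ht v0 v h0 hk hJ
  let n := Fintype.card I
  let A := v0.totalDegree + ∑ k, (v k).totalDegree
  obtain ⟨B, hB, hlt⟩ := card_lt n A
  have hn : Fintype.card (Option I) = n + 1 := Fintype.card_option
  let M := Fintype.card (Option I) * B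
  have hM : M = (n + 1) * B := by rw [← hn]
  have hA0 : v0.totalDegree ≤ A := Nat.le_add_right _ _
  have hAk : ∀ k, (v k).totalDegree ≤ A := fun k =>
    (Finset.single_le_sum (f := fun k => (v k).totalDegree) (fun _ _ => Nat.zero_le _)
      (Finset.mem_univ k)).trans (Nat.le_add_left _ _)
  refine ⟨M, by rw [hM]; positivity, ?_⟩
  obtain ⟨V0, hV0⟩ := exists_lift P h0
  choose V hV using fun k => exists_lift P (hk k)
  let Ex := {β : I →₀ ℕ | ∑ x, β x ≤ M * A}
  have hfin : Finite Ex := (card_exp (I := I) (M * A)).1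
  have : Fintype Ex := Fintype.ofFinite _
  have hcard : Nat.card Ex < Fintype.card (Option I → Fin (B + 1)) := by
    rw [Fintype.card_fun, Fintype.card_fin, hn]
    refine lt_of_le_of_lt (card_exp (I := I) (M * A)).2 ?_
    rw [hM]
    exact hlt
  let L : ((Option I → Fin (B + 1)) → ℂ) →ₗ[ℂ] (Ex → ℂ) :=
    { toFun := fun c β => ∑ α, c α * theta P (coeff β.1 (pr B V0 V α))
      map_add' := fun c c' => by
        funext β
        simp only [Pi.add_apply, add_mul, Finset.sum_add_distrib]
      map_smul' := fun z c => by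
        funext β
        simp only [Pi.smul_apply, smul_eq_mul, RingHom.id_apply, mul_assoc, Finset.mul_sum] }
  have hL : LinearMap.ker L ≠ ⊥ := by
    apply LinearMap.ker_ne_bot_of_finrank_lt
    rw [Module.finrank_fintype_fun_eq_card, Module.finrank_fintype_fun_eq_card,
      ← Nat.card_eq_fintype_card]
    exact hcard
  obtain ⟨c, hc, hc0⟩ := (Submodule.ne_bot_iff _).1 hL
  choose wo hwo using fun α => pr_word B v0 v α
  have hsum : ∑ w : Fin M → Option (Option I),
      C (algebraMap ℂ K (∑ α ∈ Finset.univ.filter (fun α => wo α = w), c α)) *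
        ∏ i, (w i).elim v0 v = ∑ α, C (algebraMap ℂ K (c α)) * pr B v0 v α := by
    rw [← Finset.sum_fiberwise Finset.univ wo]
    refine Finset.sum_congr rfl fun w _ => ?_
    rw [map_sum, map_sum, Finset.sum_mul]
    refine Finset.sum_congr rfl fun α hα => ?_
    rw [hwo α, (Finset.mem_filter.1 hα).2]
  refine ⟨fun w => ∑ α ∈ Finset.univ.filter (fun α => wo α = w), c α, ?_, ?_⟩
  · rw [hsum]
    intro h
    exact hc0 (indep P ht B h0 hk hJ c h)
  · intro β
    rw [hsum]
    by_cases hβ : ∑ x, β x ≤ M * A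
    · have h1 : coeff β (∑ α, C (algebraMap ℂ K (c α)) * pr B v0 v α) =
          io P (∑ α, cst P (c α) * coeff β (pr B V0 V α)) := by
        rw [coeff_sum, map_sum]
        refine Finset.sum_congr rfl fun α _ => ?_
        rw [coeff_C_mul, map_mul, io_cst, ← coeff_map, map_pr, hV0]
        simp_rw [hV]
      rw [h1, ← theta_eq_zero, map_sum]
      have h2 : L c = 0 := hc
      have h3 := congrFun h2 ⟨β, hβ⟩
      change ∑ α, c α * theta P (coeff β (pr B V0 V α)) = 0 at h3
      rw [← h3]
      refine Finset.sum_congr rfl fun α _ => ?_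
      rw [map_mul, theta_cst]
    · left
      rw [coeff_sum]
      refine Finset.sum_eq_zero fun α _ => ?_
      rw [coeff_C_mul]
      have h1 : coeff β (pr B v0 v α) = 0 := by
        apply coeff_eq_zero_of_totalDegree_lt
        refine lt_of_le_of_lt (degree_pr hA0 hAk α) ?_
        have e : ∑ i ∈ β.support, β i = ∑ x, β x :=
          Finset.sum_subset (Finset.subset_univ _) fun x _ hx => by
            rwa [Finsupp.notMem_support_iff] at hx
        rw [e]
        exact not_le.1 hβ
      rw [h1, mul_zero]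

end Pool.Agent.Helper43.FL

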